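import Pool.Agent.H61.KV.TF

/-!
# Kuiper board KV, F12: Hermitian matrices
-/

set_option autoImplicit false
set_option linter.unusedVariables false

open Topology Set
open Pool.Agent.H59 hiding Dl
open Pool.Agent.H64.LB Pool.Agent.H61.KV Pool.Agent.H61.KU
open scoped unitInterval

namespace Pool.Agent.H99.KV.ASM

theorem neg_not {T : Set F4} (hT : IsCC T) {a : F4} (ha : a ∈ T) (h0 : a ≠ 0) : -a ∉ T := by
  intro h
  obtain ⟨e, he⟩ := hT.pos
  have h1 := he a ha h0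
  have h2 := he (-a) h (neg_ne_zero.2 h0)
  rw [map_neg] at h2
  linarith

theorem zero_not_int {T : Set F4} (hT : IsCC T) : (0 : F4) ∉ interior T := by
  intro h
  have key : ∀ a : F4, a ∈ T := by
    intro a
    have h1 : Filter.Tendsto (fun δ : ℝ => δ • a) (𝓝 0) (𝓝 ((0 : ℝ) • a)) :=
      Filter.tendsto_id.smul_const a
    rw [zero_smul] at h1
    have h2 := h1.eventually (mem_interior_iff_mem_nhds.1 h)
    obtain ⟨ε, hε, hb⟩ := Metric.eventually_nhds_iff.1 h2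
    have h3 : (ε / 2) • a ∈ T := by
      apply hb
      rw [Real.dist_eq, sub_zero, abs_of_pos (by linarith)]
      linarith
    have h4 := hT.smul (ε / 2)⁻¹ (inv_nonneg.2 (by linarith)) _ h3
    rwa [smul_smul, inv_mul_cancel₀ (by positivity), one_smul] at h4
  refine neg_not hT (key (EuclideanSpace.single 0 1)) ?_ (key _)
  intro h3
  have := congrArg (fun x : F4 => x 0) h3
  simp at this

theorem ext3 {A B : Matrix (Fin 3) (Fin 3) ℂ} (h00 : A 0 0 = B 0 0) (h01 : A 0 1 = B 0 1)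
    (h02 : A 0 2 = B 0 2) (h10 : A 1 0 = B 1 0) (h11 : A 1 1 = B 1 1) (h12 : A 1 2 = B 1 2)
    (h20 : A 2 0 = B 2 0) (h21 : A 2 1 = B 2 1) (h22 : A 2 2 = B 2 2) : A = B := by
  ext i j
  match i, j with
  | 0, 0 => exact h00
  | 0, 1 => exact h01
  | 0, 2 => exact h02
  | 1, 0 => exact h10
  | 1, 1 => exact h11
  | 1, 2 => exact h12
  | 2, 0 => exact h20
  | 2, 1 => exact h21
  | 2, 2 => exact h22

theorem ext2 {A B : Matrix (Fin 2) (Fin 2) ℂ} (h00 : A 0 0 = B 0 0) (h01 : A 0 1 = B 0 1)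
    (h10 : A 1 0 = B 1 0) (h11 : A 1 1 = B 1 1) : A = B := by
  ext i j
  match i, j with
  | 0, 0 => exact h00
  | 0, 1 => exact h01
  | 1, 0 => exact h10
  | 1, 1 => exact h11

theorem ext2v {A B : Fin 2 → ℂ} (h0 : A 0 = B 0) (h1 : A 1 = B 1) : A = B := by
  ext i
  match i with
  | 0 => exact h0
  | 1 => exact h1

theorem ext3v {A B : Fin 3 → ℂ} (h0 : A 0 = B 0) (h1 : A 1 = B 1) (h2 : A 2 = B 2) : A = B := by
  ext i
  match i with
  | 0 => exact h0
  | 1 => exact h1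
  | 2 => exact h2

/-- bordered matrix -/
noncomputable def Lf (A : Matrix (Fin 2) (Fin 2) ℂ) (w : Fin 2 → ℂ) (r : ℝ) :
    Matrix (Fin 3) (Fin 3) ℂ :=
  !![A 0 0, A 0 1, w 0; A 1 0, A 1 1, w 1; star (w 0), star (w 1), (r : ℂ)]

theorem L1 (z : Fin 2 → ℂ) (ζ : ℂ) :
    Lf ((‖ζ‖ ^ 2 : ℝ) • Matrix.vecMulVec z (star z)) ((‖ζ‖ ^ 2 : ℝ) • z) (‖ζ‖ ^ 2) =
      Matrix.vecMulVec ![ζ * z 0, ζ * z 1, ζ] (star ![ζ * z 0, ζ * z 1, ζ]) := by
  have h : (((‖ζ‖ ^ 2 : ℝ)) : ℂ) = ζ * star ζ := by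
    rw [Complex.star_def, Complex.mul_conj, Complex.normSq_eq_norm_sq]
  refine ext3 ?_ ?_ ?_ ?_ ?_ ?_ ?_ ?_ ?_ <;>
    simp only [Lf, Matrix.vecMulVec, Matrix.of_apply, Matrix.cons_val', Matrix.cons_val_zero,
      Matrix.cons_val_one, Matrix.cons_val, Matrix.smul_apply, Pi.smul_apply, Pi.star_apply,
      Complex.real_smul, h, Fin.zero_eta, Fin.mk_one, Fin.reduceFinMk, star_mul', star_star,
      Fin.isValue] <;> ring

theorem L2 (z : Fin 2 → ℂ) :
    Lf (Matrix.vecMulVec z (star z)) 0 0 =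
      Matrix.vecMulVec ![z 0, z 1, 0] (star ![z 0, z 1, 0]) := by
  refine ext3 ?_ ?_ ?_ ?_ ?_ ?_ ?_ ?_ ?_ <;> simp [Lf, Matrix.vecMulVec]

theorem pf_ASM (h2 : T_CNC) : T_ASM := by
  intro m T g g₀ l β θ Λ H Q hg hinj hherm hΛ
  let L : F9 →ₗ[ℝ] Matrix (Fin 3) (Fin 3) ℂ :=
    { toFun := fun v => Lf (Λ (v.1 - l v.2.1 - v.2.2 • g₀)) (θ.symm v.2.1) v.2.2
      map_add' := by
        intro v w
        have e : (v + w).1 - l (v + w).2.1 - (v + w).2.2 • g₀ =
            (v.1 - l v.2.1 - v.2.2 • g₀) + (w.1 - l w.2.1 - w.2.2 • g₀) := by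
          simp only [Prod.fst_add, Prod.snd_add, map_add, add_smul]
          abel
        rw [e, map_add]
        refine ext3 ?_ ?_ ?_ ?_ ?_ ?_ ?_ ?_ ?_ <;> simp [Lf]
      map_smul' := by
        intro c v
        have e : (c • v).1 - l (c • v).2.1 - (c • v).2.2 • g₀ =
            c • (v.1 - l v.2.1 - v.2.2 • g₀) := by
          simp only [Prod.smul_fst, Prod.smul_snd, map_smul, smul_sub, smul_smul, smul_eq_mul]
        rw [e, map_smul]
        refine ext3 ?_ ?_ ?_ ?_ ?_ ?_ ?_ ?_ ?_ <;> simp [Lf] }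
  have hL : ∀ v, L v = Lf (Λ (v.1 - l v.2.1 - v.2.2 • g₀)) (θ.symm v.2.1) v.2.2 := fun v => rfl
  have hβ : ∀ (z : Fin 2 → ℂ) (r : ℝ), L (r • g (θ z), r • θ z, r) =
      Lf (r • Matrix.vecMulVec z (star z)) (r • z) r := by
    intro z r
    rw [hL]
    have e : r • g (θ z) - l (r • θ z) - r • g₀ = r • β (θ z) (θ z) := by
      rw [hg, map_smul, smul_add, smul_add]
      abel
    change Lf (Λ (r • g (θ z) - l (r • θ z) - r • g₀)) (θ.symm (r • θ z)) r = _
    rw [e, map_smul Λ, hΛ, map_smul θ.symm, LinearEquiv.symm_apply_apply]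
  refine ⟨L, ?_, ?_, ?_, ?_⟩
  · rw [injective_iff_map_eq_zero]
    intro v hv
    rw [hL] at hv
    have e00 := congrFun (congrFun hv 0) 0
    have e01 := congrFun (congrFun hv 0) 1
    have e10 := congrFun (congrFun hv 1) 0
    have e11 := congrFun (congrFun hv 1) 1
    have e02 := congrFun (congrFun hv 0) 2
    have e12 := congrFun (congrFun hv 1) 2
    have e22 := congrFun (congrFun hv 2) 2
    simp only [Lf, Matrix.of_apply, Matrix.cons_val', Matrix.cons_val_zero, Matrix.cons_val_one,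
      Matrix.cons_val, Matrix.zero_apply, Fin.isValue] at e00 e01 e10 e11 e02 e12 e22
    have hr : v.2.2 = 0 := by exact_mod_cast e22
    have hu : v.2.1 = 0 := by
      have : θ.symm v.2.1 = 0 := by
        exact ext2v e02 e12
      simpa using this
    rw [hr, hu, map_zero, zero_smul, sub_zero, sub_zero] at e00 e01 e10 e11
    have ha : v.1 = 0 := by
      apply hinj
      rw [map_zero]
      exact ext2 e00 e01 e10 e11
    exact Prod.ext ha (Prod.ext hu hr)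
  · intro v
    rw [hL]
    have hA := hherm (v.1 - l v.2.1 - v.2.2 • g₀)
    generalize Λ (v.1 - l v.2.1 - v.2.2 • g₀) = A at hA ⊢
    have a00 := hA.apply 0 0
    have a01 := hA.apply 0 1
    have a10 := hA.apply 1 0
    have a11 := hA.apply 1 1
    refine ext3 ?_ ?_ ?_ ?_ ?_ ?_ ?_ ?_ ?_ <;>
      simp [Lf, Matrix.conjTranspose_apply] <;>
      first | exact a00 | exact a01 | exact a10 | exact a11
  · rintro ⟨a, u, r⟩ hv
    rcases (H.mh a u r).1 hv with ⟨hr, ha⟩ | ⟨hr, hu, ha, hai⟩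
    · have h1 := hβ (θ.symm (r⁻¹ • u)) r
      rw [LinearEquiv.apply_symm_apply, smul_smul, mul_inv_cancel₀ hr.ne', one_smul, ← ha] at h1
      have h3 : ‖((Real.sqrt r : ℝ) : ℂ)‖ ^ 2 = r := by
        rw [Complex.norm_real, Real.norm_eq_abs, sq_abs, Real.sq_sqrt hr.le]
      have h4 := L1 (θ.symm (r⁻¹ • u)) ((Real.sqrt r : ℝ) : ℂ)
      rw [h3] at h4
      rw [h1, h4]
      exact ⟨_, rfl⟩
    · subst hr hu
      by_cases h0 : a = 0
      · subst h0
        refine ⟨0, ?_⟩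
        have : ((0, 0, 0) : F9) = 0 := rfl
        rw [this, map_zero]
        ext i j
        simp [Matrix.vecMulVec]
      · obtain ⟨D, hD2, hD⟩ := Q.pln a ⟨ha, h0, hai⟩
        have hDne : D ≠ ⊥ := by
          rintro rfl
          rw [finrank_bot] at hD2
          omega
        obtain ⟨w, hwD, hw0⟩ := Submodule.exists_mem_ne_zero_of_ne_bot hDne
        obtain ⟨c, hc⟩ := (hD w).1 hwD
        obtain ⟨hb1, hb2, hb3⟩ := Q.bdy w hw0
        have hc0 : 0 < c := by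
          rcases lt_trichotomy c 0 with h | h | h
          · exfalso
            apply neg_not Q.sc.cc ha h0
            have := Q.sc.cc.smul (-c)⁻¹ (inv_nonneg.2 (by linarith)) _ hb1
            rwa [hc, smul_smul, show (-c)⁻¹ * c = -1 by
              rw [inv_neg, neg_mul, inv_mul_cancel₀ h.ne], neg_one_smul] at this
          · exact absurd (by rw [hc, h, zero_smul]) hb2
          · exact h
        have hs : (Real.sqrt c)⁻¹ * (Real.sqrt c)⁻¹ * c = 1 := by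
          rw [← mul_inv, Real.mul_self_sqrt hc0.le, inv_mul_cancel₀ hc0.ne']
        have hw' : β ((Real.sqrt c)⁻¹ • w) ((Real.sqrt c)⁻¹ • w) = a := by
          rw [map_smul, map_smul, LinearMap.smul_apply, hc, smul_smul, smul_smul, hs, one_smul]
        have hz := hΛ (θ.symm ((Real.sqrt c)⁻¹ • w))
        rw [LinearEquiv.apply_symm_apply, hw'] at hz
        refine ⟨![θ.symm ((Real.sqrt c)⁻¹ • w) 0, θ.symm ((Real.sqrt c)⁻¹ • w) 1, 0], ?_⟩
        rw [← L2, ← hz, hL]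
        simp
  · intro Z
    by_cases hζ : Z 2 = 0
    · refine ⟨(β (θ ![Z 0, Z 1]) (θ ![Z 0, Z 1]), 0, 0), ?_, ?_⟩
      · rw [H.mh]
        right
        refine ⟨rfl, rfl, ?_⟩
        by_cases h0 : θ ![Z 0, Z 1] = 0
        · rw [h0, map_zero]
          exact ⟨Q.sc.cc.zero, zero_not_int Q.sc.cc⟩
        · obtain ⟨hb1, -, hb3⟩ := Q.bdy _ h0
          exact ⟨hb1, hb3⟩
      · have h1 := L2 ![Z 0, Z 1]
        have h3 : ![(![Z 0, Z 1] : Fin 2 → ℂ) 0, (![Z 0, Z 1] : Fin 2 → ℂ) 1, 0] = Z := by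
          exact ext3v rfl rfl hζ.symm
        rw [h3] at h1
        rw [← h1, hL, ← hΛ]
        simp
    · have hr : 0 < ‖Z 2‖ ^ 2 := by
        have := norm_pos_iff.2 hζ
        positivity
      refine ⟨((‖Z 2‖ ^ 2) • g (θ ![(Z 2)⁻¹ * Z 0, (Z 2)⁻¹ * Z 1]),
        (‖Z 2‖ ^ 2) • θ ![(Z 2)⁻¹ * Z 0, (Z 2)⁻¹ * Z 1], ‖Z 2‖ ^ 2), ?_, ?_⟩
      · rw [H.mh]
        left
        refine ⟨hr, ?_⟩
        rw [smul_smul, inv_mul_cancel₀ hr.ne', one_smul]
      · rw [hβ, L1]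
        have h3 : ![Z 2 * (![(Z 2)⁻¹ * Z 0, (Z 2)⁻¹ * Z 1] : Fin 2 → ℂ) 0,
            Z 2 * (![(Z 2)⁻¹ * Z 0, (Z 2)⁻¹ * Z 1] : Fin 2 → ℂ) 1, Z 2] = Z := by
          exact ext3v (mul_inv_cancel_left₀ hζ _) (mul_inv_cancel_left₀ hζ _) rfl
        rw [h3]

end Pool.Agent.H99.KV.ASM
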