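import Pool.Agent.H61.KV.TS
import Pool.Agent.H61.KV.TF

/-!
# Kuiper board KV, F4: second differences
-/

set_option autoImplicit false
set_option linter.unusedVariables false

open Topology Set
open Pool.Agent.H59 hiding Dl
open Pool.Agent.H64.LB Pool.Agent.H61.KV Pool.Agent.H61.KU
open scoped unitInterval Pointwise

namespace Pool.Agent.H99.KV.NFD

section cone

variable {T : Set F4}

theorem int_smul (hT : IsCC T) {c : ℝ} (hc : 0 < c) {a : F4} (ha : a ∈ interior T) :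
    c • a ∈ interior T := by
  have h1 : c • a ∈ c • interior T := Set.smul_mem_smul_set ha
  rw [← interior_smul₀ hc.ne'] at h1
  refine interior_mono ?_ h1
  rintro _ ⟨b, hb, rfl⟩
  exact hT.smul c hc.le b hb

theorem int_add (hT : IsCC T) {a b : F4} (ha : a ∈ interior T) (hb : b ∈ T) :
    a + b ∈ interior T := by
  have h1 : IsOpen ((fun x => x + b) '' interior T) :=
    (Homeomorph.addRight b).isOpenMap _ isOpen_interior
  refine interior_maximal ?_ h1 ⟨a, ha, rfl⟩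
  rintro _ ⟨x, hx, rfl⟩
  exact hT.add x (interior_subset hx) b hb

theorem neg_not (hT : IsCC T) {a : F4} (ha : a ∈ T) (h0 : a ≠ 0) : -a ∉ T := by
  intro h
  obtain ⟨e, he⟩ := hT.pos
  have h1 := he a ha h0
  have h2 := he (-a) h (neg_ne_zero.2 h0)
  rw [map_neg] at h2
  linarith

theorem absorb (hT : IsCC T) {a₀ : F4} (h : a₀ ∈ interior T) (a : F4) :
    ∃ c : ℝ, 0 < c ∧ c • a₀ - a ∈ T := by
  have h1 : Filter.Tendsto (fun δ : ℝ => a₀ - δ • a) (𝓝 0) (𝓝 (a₀ - (0 : ℝ) • a)) :=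
    (tendsto_const_nhds.sub (Filter.tendsto_id.smul_const a))
  rw [zero_smul, sub_zero] at h1
  have h2 := h1.eventually (mem_interior_iff_mem_nhds.1 h)
  obtain ⟨ε, hε, hb⟩ := Metric.eventually_nhds_iff.1 h2
  have h3 : a₀ - (ε / 2) • a ∈ T := by
    apply hb
    rw [Real.dist_eq, sub_zero, abs_of_pos (by linarith)]
    linarith
  refine ⟨(ε / 2)⁻¹, by positivity, ?_⟩
  have h4 := hT.smul (ε / 2)⁻¹ (by positivity) _ h3
  rw [smul_sub, smul_smul, inv_mul_cancel₀ (by positivity), one_smul] at h4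
  exact h4

theorem zero_not_int (hT : IsCC T) : (0 : F4) ∉ interior T := by
  intro h
  obtain ⟨c, hc, h1⟩ := absorb hT h (EuclideanSpace.single 0 1)
  obtain ⟨c', hc', h2⟩ := absorb hT h (-(EuclideanSpace.single 0 1))
  rw [smul_zero, zero_sub] at h1 h2
  rw [neg_neg] at h2
  refine neg_not hT h2 ?_ h1
  intro h3
  have := congrArg (fun x : F4 => x 0) h3
  simp at this

end cone

section nf

variable {m : PN 2 → F9} {T : Set F4} {g : F4 → F4}

theorem mem0 (H : Nf m T g) (a : F4) : ((a, 0, 0) : F9) ∈ Cn m ↔ a ∈ T := by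
  rw [H.cn]
  constructor
  · rintro (⟨h, -⟩ | ⟨-, -, h⟩)
    · exact absurd h (lt_irrefl _)
    · exact h
  · intro h
    exact Or.inr ⟨rfl, rfl, h⟩

theorem third (H : Nf m T g) {q : F9} (hq : q ∈ Cn m) : 0 ≤ q.2.2 := by
  obtain ⟨a, u, r⟩ := q
  rcases (H.cn a u r).1 hq with ⟨h, -⟩ | ⟨h, -⟩
  · exact h.le
  · exact h.ge

theorem gam (H : Nf m T g) (hT : IsCC T) (v : F4) : ((g v, v, 1) : F9) ∈ Cn m := by
  rw [H.cn]
  left
  refine ⟨one_pos, ?_⟩
  rw [inv_one, one_smul, one_smul, sub_self]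
  exact hT.zero

theorem gam_mh (H : Nf m T g) (v : F4) : ((g v, v, 1) : F9) ∈ Mh m := by
  rw [H.mh]
  left
  refine ⟨one_pos, ?_⟩
  rw [inv_one, one_smul, one_smul]

theorem mem_fc (H : Nf m T g) (hT : IsCC T) {a₀ : F4} (ha : a₀ ∈ interior T) (q : F9) :
    q ∈ Fc (Cn m) (a₀, 0, 0) ↔ ∃ a ∈ T, q = (a, 0, 0) := by
  constructor
  · rintro ⟨hq, c, hc, h⟩
    have h1 := third H hq
    have h2 := third H h
    have h3 : (c • ((a₀, 0, 0) : F9) - q).2.2 = - q.2.2 := by simp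
    rw [h3] at h2
    have h4 : q.2.2 = 0 := by linarith
    obtain ⟨a, u, r⟩ := q
    simp only at h4
    subst h4
    rcases (H.cn a u 0).1 hq with ⟨h5, -⟩ | ⟨-, h5, h6⟩
    · exact absurd h5 (lt_irrefl _)
    · subst h5
      exact ⟨a, h6, rfl⟩
  · rintro ⟨a, ha', rfl⟩
    obtain ⟨c, hc, h⟩ := absorb hT ha a
    refine ⟨(mem0 H a).2 ha', c, hc.le, ?_⟩
    have : c • ((a₀, 0, 0) : F9) - (a, 0, 0) = (c • a₀ - a, 0, 0) := by
      simp [Prod.ext_iff]
    rw [this]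
    exact (mem0 H _).2 h

theorem mem_sp (H : Nf m T g) (hT : IsCC T) {a₀ : F4} (ha : a₀ ∈ interior T) (q : F9)
    (hq : q ∈ Sp (Cn m) (a₀, 0, 0)) : q.2 = 0 := by
  have : Sp (Cn m) (a₀, 0, 0) ≤ LinearMap.ker (LinearMap.snd ℝ F4 (F4 × ℝ)) := by
    rw [Sp, Submodule.span_le]
    intro x hx
    obtain ⟨a, -, rfl⟩ := (mem_fc H hT ha x).1 hx
    rfl
  exact this hq

theorem foot (H : Nf m T g) (hT : IsCC T) {a₀ : F4} (ha : a₀ ∈ interior T) (v : F4) :
    Foot (Cn m) (a₀, 0, 0) (g v, v, 1) (g v, v, 1) := by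
  intro r
  constructor
  · rintro ⟨h1, h2⟩
    have h3 := mem_sp H hT ha _ h2
    obtain ⟨a, u, ρ⟩ := r
    simp only [Prod.mk_sub_mk, Prod.mk_eq_zero, sub_eq_zero] at h3
    obtain ⟨rfl, rfl⟩ := h3
    rw [mem_fc H hT ha]
    refine ⟨a - g u, ?_, by simp; rfl⟩
    rcases (H.cn a u 1).1 h1 with ⟨-, h4⟩ | ⟨h4, -⟩
    · rwa [inv_one, one_smul, one_smul] at h4
    · exact absurd h4 one_ne_zero
  · intro h
    refine ⟨?_, Submodule.subset_span h⟩
    obtain ⟨a, ha', h1⟩ := (mem_fc H hT ha _).1 h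
    have h2 : r = (g v + a, v, 1) := by
      rw [sub_eq_iff_eq_add] at h1
      rw [h1]
      simp [add_comm]
    rw [h2, H.cn]
    left
    refine ⟨one_pos, ?_⟩
    rw [inv_one, one_smul, one_smul, add_sub_cancel_left]
    exact ha'

theorem dl_mem {T : Set F4} {g : F4 → F4} (hT : IsCC T) (hcvx : ∀ (u v : F4) (c : ℝ), 0 ≤ c →
    c ≤ 1 → c • g u + (1 - c) • g v - g (c • u + (1 - c) • v) ∈ T) (u w : F4) : Dl g u w ∈ T := by
  have h1 := hcvx (u + w) (u - w) (1 / 2) (by norm_num) (by norm_num)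
  have h2 := hT.smul 2 (by norm_num) _ h1
  have h3 : (1 / 2 : ℝ) • (u + w) + (1 - 1 / 2 : ℝ) • (u - w) = u := by
    module
  rw [h3] at h2
  have h4 : (2 : ℝ) • ((1 / 2 : ℝ) • g (u + w) + (1 - 1 / 2 : ℝ) • g (u - w) - g u) =
      Dl g u w := by
    rw [Dl]
    module
  rwa [h4] at h2

theorem sum_gam (g : F4 → F4) (u w : F4) : ((g (u + w), u + w, 1) : F9) + (g (u - w), u - w, 1) =
    (2 : ℝ) • ((g u, u, 1) : F9) + (Dl g u w, 0, 0) := by
  simp only [Prod.mk_add_mk, Prod.smul_mk, Prod.mk.injEq, Dl]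
  refine ⟨by module, by module, by norm_num⟩

end nf

theorem pf_NFD (h1 : T_FCB) (h2 : T_CNC) (h3 : T_NFS) (h4 : T_NFP) (h5 : T_RK4) (h6 : T_MAX)
    (h7 : T_JOI) (h8 : T_UNI) (h9 : T_FTR) (h10 : T_EBD) (h11 : T_STM) (h12 : T_EFR) : T_NFD := by
  intro m T g H
  obtain ⟨sc, cont, cvx⟩ := h3 m T g H
  obtain ⟨hC, -, hmC, -, hMC, -, -, -⟩ := h2 F9 m H.cfg
  have hT := sc.cc
  obtain ⟨a₀, ha₀, hMs⟩ := H.ms
  set p : F9 := (a₀, 0, 0) with hp
  have hpC : p ∈ Cn m := hMs.1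
  have fcp : ∀ q, q ∈ Fc (Cn m) p ↔ ∃ a ∈ T, q = (a, 0, 0) := mem_fc H hT ha₀
  have hfoot : ∀ v, Foot (Cn m) p (g v, v, 1) (g v, v, 1) := foot H hT ha₀
  have hgp : ∀ v, ((g v, v, 1) : F9) ∉ Fc (Cn m) p := by
    intro v h
    obtain ⟨a, -, h⟩ := (fcp _).1 h
    have := congrArg (fun x : F9 => x.2.2) h
    exact one_ne_zero this
  have hgC : ∀ v, ((g v, v, 1) : F9) ∈ Cn m := gam H hT
  have hOv : ∀ v, Ov (Cn m) p (g v, v, 1) := fun v =>
    h6 F9 m H.cfg H.nsg p hMs _ (hgC v) (hgp v)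
  have hBd : ∀ t, Bo T t → Bd (Cn m) p (t, 0, 0) := by
    rintro t ⟨ht, ht0, hti⟩
    refine ⟨(fcp _).2 ⟨t, ht, rfl⟩, ?_, ?_⟩
    · intro h
      exact ht0 (congrArg Prod.fst h)
    · rintro ⟨-, c, hc, h⟩
      have e1 : c • ((t, 0, 0) : F9) - p = (c • t - a₀, 0, 0) := by
        simp [hp, Prod.ext_iff]
      rw [e1, mem0 H] at h
      have e2 : c • t ∈ interior T := by
        have := int_add hT ha₀ h
        rwa [add_sub_cancel] at this
      rcases hc.eq_or_lt with h0 | h0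
      · rw [← h0, zero_smul] at e2
        exact zero_not_int hT e2
      · have := int_smul hT (inv_pos.2 h0) e2
        rw [smul_smul, inv_mul_cancel₀ h0.ne', one_smul] at this
        exact hti this
  have hDT : ∀ u w, Dl g u w ∈ T := dl_mem hT cvx
  have cpos : ∀ (t : F4) (c : ℝ), t ∈ T → t ≠ 0 → c • t ∈ T → 0 ≤ c := by
    intro t c ht ht0 hct
    by_contra hc
    push Not at hc
    have := hT.smul (-c)⁻¹ (inv_nonneg.2 (by linarith)) _ hct
    rw [smul_smul, show (-c)⁻¹ * c = -1 by rw [inv_neg, neg_mul, inv_mul_cancel₀ hc.ne], neg_one_smul]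
      at this
    exact neg_not hT ht ht0 this
  -- the claim
  have claim : ∀ t, Bo T t → ∀ u w, ((g (u + w), u + w, (1 : ℝ)) : F9) ∈
      Fc (Cn m) (g u + t, u, (1 : ℝ)) → ((g (u - w), u - w, (1 : ℝ)) : F9) ∈
      Fc (Cn m) (g u + t, u, (1 : ℝ)) → ∃ c : ℝ, Dl g u w = c • t := by
    intro t ht u w hw hw'
    have e0 : ((g u, u, 1) : F9) + (t, 0, 0) = (g u + t, u, 1) := by simp
    have htp : ((t, 0, 0) : F9) ∈ Fc (Cn m) p := (hBd t ht).1
    obtain ⟨f1, f2, f3⟩ := h9 F9 (Cn m) p (g u, u, 1) (t, 0, 0) hC hpC (hgC u) htp (hfoot u)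
    rw [e0] at f1 f2 f3
    have hpu : ((g u + t, u, 1) : F9) ∈ Cn m := by
      rw [← e0]
      exact hC.add _ (hgC u) _ htp.1
    obtain ⟨g1, g2, g3, g4, g5, g6, g7⟩ := h1 F9 (Cn m) _ hC hpu
    have s1 := g2.add _ hw _ hw'
    rw [sum_gam] at s1
    have s2 := (g3 _ (hC.smul 2 (by norm_num) _ (hgC u)) _ ((mem0 H _).2 (hDT u w)) s1).2
    have s3 := f3 _ ((fcp _).2 ⟨_, hDT u w, rfl⟩) s2
    obtain ⟨c, hc⟩ := (h10 F9 m H.cfg H.nsg p (t, 0, 0) hMs (hBd t ht)).2.2 _ s3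
    exact ⟨c, congrArg Prod.fst hc⟩
  refine ⟨sc, cont, cvx, ?_, ?_⟩
  · intro u w hw
    refine ⟨hDT u w, ?_⟩
    obtain ⟨c, x, hc, hx⟩ := gam_mh H u
    obtain ⟨c', y, hc', hy⟩ := gam_mh H (u + w)
    have hc0 : 0 < c := by
      rcases hc.eq_or_lt with h0 | h0
      · rw [← h0, zero_smul] at hx
        have := congrArg (fun x : F9 => x.2.2) hx
        exact absurd this one_ne_zero
      · exact h0
    have hc0' : 0 < c' := by
      rcases hc'.eq_or_lt with h0 | h0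
      · rw [← h0, zero_smul] at hy
        have := congrArg (fun x : F9 => x.2.2) hy
        exact absurd this one_ne_zero
      · exact h0
    have prop0 : ∀ c'' : ℝ, ((g (u + w), u + w, 1) : F9) ≠ c'' • (g u, u, 1) := by
      intro c'' h
      have k1 := congrArg (fun x : F9 => x.2.2) h
      have k2 := congrArg (fun x : F9 => x.2.1) h
      simp only [Prod.smul_mk, smul_eq_mul, mul_one] at k1 k2
      rw [← k1, one_smul, add_eq_left] at k2
      exact hw k2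
    have hxy : x ≠ y := by
      rintro rfl
      apply prop0 (c' * c⁻¹)
      rw [hy, hx, smul_smul, mul_assoc, inv_mul_cancel₀ hc0.ne', mul_one]
    obtain ⟨p1, hp1, hx1, hy1⟩ := h7 F9 m H.cfg H.nsg x y hxy
    obtain ⟨g1, g2, g3, g4, g5, g6, g7⟩ := h1 F9 (Cn m) p1 hC hp1.1
    have hu1 : ((g u, u, 1) : F9) ∈ Fc (Cn m) p1 := by
      rw [hx]; exact g2.smul c hc _ hx1
    have hw1 : ((g (u + w), u + w, 1) : F9) ∈ Fc (Cn m) p1 := by
      rw [hy]; exact g2.smul c' hc' _ hy1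
    obtain ⟨q1, q2, q3, q4, q5, q6, q7⟩ := h1 F9 (Cn m) p hC hpC
    have hp1p : p1 ∉ Fc (Cn m) p := fun h => hgp u (q4 _ h hu1)
    obtain ⟨τ, hτ0, hτp, hτ1, -⟩ := h8 F9 m H.cfg H.nsg p p1 hMs hp1 hp1p
    obtain ⟨t, ht, rfl⟩ := (fcp τ).1 hτp
    have ht0 : t ≠ 0 := by
      rintro rfl
      exact hτ0 rfl
    have hti : t ∉ interior T := by
      intro hti
      obtain ⟨c1, hc1, k1⟩ := absorb hT hti a₀
      have k2 : p ∈ Fc (Cn m) ((t, 0, 0) : F9) := by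
        refine ⟨hpC, c1, hc1.le, ?_⟩
        have e1 : c1 • ((t, 0, 0) : F9) - p = (c1 • t - a₀, 0, 0) := by
          simp [hp, Prod.ext_iff]
        rw [e1, mem0 H]
        exact k1
      have k3 : p ∈ Fc (Cn m) p1 := g4 _ hτ1 k2
      rcases hp1.2.2 p k3 with k4 | k4
      · exact hp1p k4
      · exact hMs.2.1 (k4 q1)
    have hBo : Bo T t := ⟨ht, ht0, hti⟩
    have e0 : ((g u, u, 1) : F9) + (t, 0, 0) = (g u + t, u, 1) := by simp
    have hpu : ((g u + t, u, 1) : F9) ∈ Fc (Cn m) p1 := by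
      rw [← e0]
      exact g2.add _ hu1 _ hτ1
    have hpuM : ((g u + t, u, 1) : F9) ∉ Mh m := by
      intro h
      rcases (H.mh _ _ _).1 h with ⟨-, k⟩ | ⟨k, -⟩
      · rw [inv_one, one_smul, one_smul, add_eq_left] at k
        exact ht0 k
      · exact one_ne_zero k
    have hp1u : p1 ∈ Fc (Cn m) ((g u + t, u, 1) : F9) := by
      rcases hp1.2.2 _ hpu with k | k
      · exact k
      · exact absurd (k (h1 F9 (Cn m) _ hC hpu.1).1) hpuM
    have hFeq := g7 _ hpu hp1u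
    obtain ⟨D, -, hD⟩ := h4 m T g H t hBo u
    have hwD : w ∈ D := (hD w).2 (by rw [hFeq]; exact hw1)
    have hwD' := D.neg_mem hwD
    have hw' := (hD (-w)).1 hwD'
    rw [← sub_eq_add_neg] at hw'
    obtain ⟨c1, hc1⟩ := claim t hBo u w ((hD w).1 hwD) hw'
    have hc1' : 0 ≤ c1 := cpos t c1 ht ht0 (hc1 ▸ hDT u w)
    have hD0 : Dl g u w ≠ 0 := by
      intro h0
      have k1 := sum_gam g u w
      rw [h0] at k1
      have k2 : ((g (u + w), u + w, 1) : F9) ∈ Fc (Cn m) (g u, u, 1) := by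
        refine ⟨hgC _, 2, by norm_num, ?_⟩
        have : (2 : ℝ) • ((g u, u, 1) : F9) - (g (u + w), u + w, 1) = (g (u - w), u - w, 1) := by
          rw [sub_eq_iff_eq_add, add_comm, k1]
          simp
        rw [this]
        exact hgC _
      have k3 := (h11 F9 m H.cfg p hMs (g u, u, 1) (g u, u, 1) (hfoot u)).2.2
      obtain ⟨c'', k4⟩ := h12 F9 m H.cfg H.nsg (g u, u, 1) (hgC u) k3 _ k2
      exact prop0 c'' k4
    refine ⟨hD0, ?_⟩
    rw [hc1]
    intro k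
    have hc2 : 0 < c1 := by
      rcases hc1'.eq_or_lt with h0 | h0
      · exfalso
        apply hD0
        rw [hc1, ← h0, zero_smul]
      · exact h0
    have := int_smul hT (inv_pos.2 hc2) k
    rw [smul_smul, inv_mul_cancel₀ hc2.ne', one_smul] at this
    exact hti this
  · intro t ht u
    obtain ⟨D, hD2, hD⟩ := h4 m T g H t ht u
    refine ⟨D, hD2, fun w => ⟨fun hw => ?_, ?_⟩⟩
    · have hw' := (hD (-w)).1 (D.neg_mem hw)
      rw [← sub_eq_add_neg] at hw'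
      exact claim t ht u w ((hD w).1 hw) hw'
    · rintro ⟨c, hc⟩
      have hc0 : 0 ≤ c := cpos t c ht.1 ht.2.1 (hc ▸ hDT u w)
      have e0 : ((g u, u, 1) : F9) + (t, 0, 0) = (g u + t, u, 1) := by simp
      have htp : ((t, 0, 0) : F9) ∈ Fc (Cn m) p := (hBd t ht).1
      obtain ⟨f1, f2, f3⟩ := h9 F9 (Cn m) p (g u, u, 1) (t, 0, 0) hC hpC (hgC u) htp (hfoot u)
      rw [e0] at f1 f2 f3
      have hpu : ((g u + t, u, 1) : F9) ∈ Cn m := by
        rw [← e0]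
        exact hC.add _ (hgC u) _ htp.1
      obtain ⟨g1, g2, g3, g4, g5, g6, g7⟩ := h1 F9 (Cn m) _ hC hpu
      have s1 := g2.add _ (g2.smul 2 (by norm_num) _ f1) _ (g2.smul c hc0 _ f2)
      have s2 : (2 : ℝ) • ((g u, u, 1) : F9) + c • ((t, 0, 0) : F9) =
          ((g (u + w), u + w, 1) : F9) + (g (u - w), u - w, 1) := by
        rw [sum_gam, hc]
        simp
      rw [s2] at s1
      exact (hD w).2 (g3 _ (hgC _) _ (hgC _) s1).1

end Pool.Agent.H99.KV.NFD
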